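import Mathlib

open Finset

namespace Pool.Agent.Helper852.Bip

variable {V : Type*} [Fintype V] [DecidableEq V] (G : SimpleGraph V) [DecidableRel G.Adj]

/-- common neighbourhood -/
def cn (S : Finset V) : Finset V := univ.filter (fun v => ∀ x ∈ S, G.Adj x v)

lemma mem_cn {S : Finset V} {v : V} : v ∈ cn G S ↔ ∀ x ∈ S, G.Adj x v := by
  simp [cn]

/-- counting `r`-subsets of `A` together with a common neighbour -/
lemma sum_cn_weight (A : Finset V) (r : ℕ) (w : V → ℝ) :
    ∑ R ∈ powersetCard r A, ∑ x ∈ cn G R, w x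
      = ∑ x : V, ((A.filter (fun y => G.Adj y x)).card.choose r : ℝ) * w x := by
  have h1 : ∀ R ∈ powersetCard r A, ∑ x ∈ cn G R, w x
      = ∑ x : V, if x ∈ cn G R then w x else 0 := by
    intro R _
    rw [← Finset.sum_filter]
    congr 1
    ext x; simp
  rw [Finset.sum_congr rfl h1, Finset.sum_comm]
  refine Finset.sum_congr rfl (fun x _ => ?_)
  rw [← Finset.sum_filter, Finset.sum_const, nsmul_eq_mul]
  congr 1
  norm_cast
  rw [← Finset.card_powersetCard]
  congr 1
  ext R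
  simp only [mem_filter, mem_powersetCard, mem_cn]
  constructor
  · rintro ⟨⟨h1, h2⟩, h3⟩
    refine ⟨fun y hy => ?_, h2⟩
    rw [mem_filter]
    exact ⟨h1 hy, h3 y hy⟩
  · rintro ⟨h1, h2⟩
    refine ⟨⟨fun y hy => (mem_filter.1 (h1 hy)).1, h2⟩, fun y hy => (mem_filter.1 (h1 hy)).2⟩

lemma sum_cn_card (A : Finset V) (r : ℕ) :
    ∑ R ∈ powersetCard r A, ((cn G R).card : ℝ)
      = ∑ x : V, ((A.filter (fun y => G.Adj y x)).card.choose r : ℝ) := by
  have := sum_cn_weight G A r (fun _ => 1)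
  simpa using this

/-- `C(a,r) / C(L,r) ≥ ((a+1-r)/L)^r` -/
lemma choose_ratio (a L r : ℕ) :
    ((a + 1 - r : ℕ) : ℝ) ^ r * (L.choose r : ℝ) ≤ (L : ℝ) ^ r * (a.choose r : ℝ) := by
  have h1 : ((a + 1 - r) ^ r : ℕ) ≤ a.descFactorial r := Nat.pow_sub_le_descFactorial a r
  have h2 : L.descFactorial r ≤ L ^ r := Nat.descFactorial_le_pow L r
  have h3 : (a + 1 - r) ^ r * L.descFactorial r ≤ L ^ r * a.descFactorial r := by
    calc (a + 1 - r) ^ r * L.descFactorial r ≤ a.descFactorial r * L ^ r := Nat.mul_le_mul h1 h2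
      _ = _ := by ring
  rw [Nat.descFactorial_eq_factorial_mul_choose, Nat.descFactorial_eq_factorial_mul_choose] at h3
  have h4 : (a + 1 - r) ^ r * L.choose r ≤ L ^ r * a.choose r := by
    have hf : 0 < r.factorial := Nat.factorial_pos r
    have : r.factorial * ((a + 1 - r) ^ r * L.choose r) ≤ r.factorial * (L ^ r * a.choose r) := by
      calc r.factorial * ((a + 1 - r) ^ r * L.choose r)
          = (a + 1 - r) ^ r * (r.factorial * L.choose r) := by ring
        _ ≤ L ^ r * (r.factorial * a.choose r) := h3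
        _ = _ := by ring
    exact Nat.le_of_mul_le_mul_left this hf
  exact_mod_cast h4

/-- power mean inequality in the form used below -/
lemma power_mean (T : Finset V) (g : V → ℝ) (hg : ∀ x ∈ T, 0 ≤ g x) (r : ℕ) (m : ℝ) (hm : 0 ≤ m)
    (hmean : m * (T.card : ℝ) ≤ ∑ x ∈ T, g x) (hr : 1 ≤ r) :
    (T.card : ℝ) * m ^ r ≤ ∑ x ∈ T, g x ^ r := by
  rcases Finset.eq_empty_or_nonempty T with h | h
  · subst h; simp
  obtain ⟨k, rfl⟩ : ∃ k, r = k + 1 := ⟨r - 1, by omega⟩
  have hc : (0 : ℝ) < T.card := by exact_mod_cast h.card_pos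
  have h2 : (∑ i ∈ T, g i) ^ (k + 1) / (T.card : ℝ) ^ k ≤ ∑ i ∈ T, g i ^ (k + 1) :=
    pow_sum_div_card_le_sum_pow (s := T) (f := g) (hf := hg) (n := k)
  refine le_trans ?_ h2
  rw [le_div_iff₀ (by positivity)]
  calc (T.card : ℝ) * m ^ (k + 1) * (T.card : ℝ) ^ k = (m * (T.card : ℝ)) ^ (k + 1) := by ring
    _ ≤ _ := by
        apply pow_le_pow_left₀ (by positivity) hmean

/-- selection of `R` inside the common neighbourhood `A` of `S0` -/
lemma exists_R (S0 : Finset V) (r : ℕ) (hr : 1 ≤ r) (m : ℝ) (hm : 0 ≤ m)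
    (hA : r ≤ (cn G S0).card)
    (hmean : m * ((cn G S0).card : ℝ) * (Fintype.card V : ℝ)
        ≤ (∑ v ∈ cn G S0, ((G.degree v : ℝ) - S0.card)) - (r : ℝ) * Fintype.card V) :
    ∃ R : Finset V, R.card = r ∧ (S0.card : ℝ) + ((Fintype.card V : ℝ) - S0.card) * m ^ r
        ≤ ((cn G R).card : ℝ) := by
  set A := cn G S0 with hAdef
  set L := A.card with hL
  have hLpos : 0 < L := by omega
  have hLpos' : (0 : ℝ) < L := by exact_mod_cast hLpos
  have hCpos : 0 < L.choose r := Nat.choose_pos hA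
  have hCpos' : (0 : ℝ) < (L.choose r : ℝ) := by exact_mod_cast hCpos
  set a : V → ℕ := fun x => (A.filter (fun y => G.Adj y x)).card with ha
  have haS : ∀ x ∈ S0, a x = L := by
    intro x hx
    simp only [ha, hL]
    congr 1
    apply Finset.filter_true_of_mem
    intro y hy
    rw [hAdef, mem_cn] at hy
    exact (hy x hx).symm
  -- sum of a over all x
  have hsum : ∑ x : V, (a x : ℝ) = ∑ v ∈ A, (G.degree v : ℝ) := by
    have : ∑ x : V, a x = ∑ v ∈ A, G.degree v := by
      simp only [ha]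
      simp_rw [Finset.card_filter]
      rw [Finset.sum_comm]
      refine Finset.sum_congr rfl (fun v _ => ?_)
      rw [← Finset.card_filter, ← SimpleGraph.card_neighborFinset_eq_degree]
      congr 1
      ext x
      simp
    exact_mod_cast this
  set T : Finset V := univ \ S0 with hT
  have hTcard : (T.card : ℝ) = (Fintype.card V : ℝ) - S0.card := by
    have : T.card + S0.card = Fintype.card V := by
      rw [hT, Finset.card_sdiff_add_card_eq_card (Finset.subset_univ _)]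
      rfl
    have h' : (T.card : ℝ) + S0.card = Fintype.card V := by exact_mod_cast this
    linarith
  have hTle : (T.card : ℝ) ≤ Fintype.card V := by
    rw [hTcard]; have : (0 : ℝ) ≤ S0.card := by positivity
    linarith
  -- mean over T
  have hsumT : ∑ x ∈ T, (a x : ℝ) = ∑ v ∈ A, ((G.degree v : ℝ) - S0.card) := by
    have h1 : ∑ x ∈ T, (a x : ℝ) + ∑ x ∈ S0, (a x : ℝ) = ∑ x : V, (a x : ℝ) := by
      rw [hT]
      exact Finset.sum_sdiff (Finset.subset_univ _)
    have h2 : ∑ x ∈ S0, (a x : ℝ) = (S0.card : ℝ) * L := by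
      rw [Finset.sum_congr rfl (fun x hx => by rw [haS x hx])]
      simp
    rw [Finset.sum_sub_distrib, Finset.sum_const, nsmul_eq_mul, ← hsum, ← h1, h2]
    ring
  have hmeanT : m * (T.card : ℝ) ≤ ∑ x ∈ T, ((a x + 1 - r : ℕ) : ℝ) / L := by
    have h1 : ∀ x ∈ T, ((a x : ℝ) - r) / L ≤ ((a x + 1 - r : ℕ) : ℝ) / L := by
      intro x _
      apply div_le_div_of_nonneg_right _ hLpos'.le
      have : ((a x : ℕ) : ℤ) - r ≤ ((a x + 1 - r : ℕ) : ℤ) := by omega
      exact_mod_cast this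
    refine le_trans ?_ (Finset.sum_le_sum h1)
    rw [← Finset.sum_div, le_div_iff₀ hLpos', Finset.sum_sub_distrib, Finset.sum_const,
      nsmul_eq_mul, hsumT]
    have h2 : m * T.card * L ≤ m * L * (Fintype.card V : ℝ) := by
      calc m * T.card * L = (m * L) * T.card := by ring
        _ ≤ (m * L) * Fintype.card V := by
            apply mul_le_mul_of_nonneg_left hTle (by positivity)
    have h3 : (T.card : ℝ) * r ≤ (r : ℝ) * Fintype.card V := by
      rw [mul_comm]
      apply mul_le_mul_of_nonneg_left hTle (by positivity)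
    linarith
  have hpm := power_mean T (fun x => ((a x + 1 - r : ℕ) : ℝ) / L)
    (fun x _ => by positivity) r m hm hmeanT hr
  -- lower bound for the total
  have htot : (L.choose r : ℝ) * ((S0.card : ℝ) + ((Fintype.card V : ℝ) - S0.card) * m ^ r)
      ≤ ∑ x : V, ((a x).choose r : ℝ) := by
    have h1 : ∑ x : V, ((a x).choose r : ℝ) = ∑ x ∈ T, ((a x).choose r : ℝ)
        + ∑ x ∈ S0, ((a x).choose r : ℝ) := by
      rw [hT]
      exact (Finset.sum_sdiff (Finset.subset_univ _)).symm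
    have h2 : ∑ x ∈ S0, ((a x).choose r : ℝ) = (S0.card : ℝ) * L.choose r := by
      rw [Finset.sum_congr rfl (fun x hx => by rw [haS x hx])]
      simp
    have h3 : ∀ x ∈ T, (L.choose r : ℝ) * (((a x + 1 - r : ℕ) : ℝ) / L) ^ r
        ≤ ((a x).choose r : ℝ) := by
      intro x _
      have := choose_ratio (a x) L r
      rw [div_pow, mul_div_assoc', div_le_iff₀ (by positivity)]
      linarith
    have h4 := Finset.sum_le_sum h3
    rw [← Finset.mul_sum] at h4
    rw [h1, h2]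
    have h5 : (L.choose r : ℝ) * (((Fintype.card V : ℝ) - S0.card) * m ^ r)
        ≤ (L.choose r : ℝ) * ∑ x ∈ T, (((a x + 1 - r : ℕ) : ℝ) / L) ^ r := by
      apply mul_le_mul_of_nonneg_left _ hCpos'.le
      rw [← hTcard]; exact hpm
    nlinarith [h4, h5]
  rw [← sum_cn_card G A r] at htot
  have hcardP : ((powersetCard r A).card : ℝ) = L.choose r := by
    rw [card_powersetCard]
  rw [← hcardP, ← nsmul_eq_mul] at htot
  obtain ⟨R, hR, hRle⟩ := Finset.exists_le_of_sum_le (s := powersetCard r A)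
    (f := fun _ => (S0.card : ℝ) + ((Fintype.card V : ℝ) - S0.card) * m ^ r)
    (g := fun R => ((cn G R).card : ℝ))
    (by rw [← Finset.card_pos, card_powersetCard]; exact hCpos)
    (by rw [Finset.sum_const]; exact htot)
  exact ⟨R, (mem_powersetCard.1 hR).2, hRle⟩

/-- selection of `S0`: many common neighbours, of large average degree -/
lemma exists_S0 (s : ℕ) (hs : 1 ≤ s) (T D m : ℝ) (n : ℕ) (hn : Fintype.card V = n) (hnpos : 0 < n)
    (hm : 0 ≤ m)
    (hmean : (m + s) * (n : ℝ) ≤ ∑ v : V, (G.degree v : ℝ) + n)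
    (hD : D * n ≤ ∑ v : V, ((G.degree v : ℝ) - T)) (hD0 : 0 ≤ D) (hsn : s ≤ n) (hT : 0 ≤ T) :
    ∃ S0 : Finset V, S0.card = s ∧
      (n : ℝ) * (m / n) ^ s * D ≤ ∑ v ∈ cn G S0, ((G.degree v : ℝ) - T) := by
  have hnpos' : (0 : ℝ) < n := by exact_mod_cast hnpos
  have hCpos : 0 < n.choose s := Nat.choose_pos hsn
  have hCpos' : (0 : ℝ) < (n.choose s : ℝ) := by exact_mod_cast hCpos
  -- degree as filter over univ
  have hdeg : ∀ x : V, ((univ : Finset V).filter (fun y => G.Adj y x)).card = G.degree x := by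
    intro x
    rw [← SimpleGraph.card_neighborFinset_eq_degree]
    congr 1
    ext y
    simp [SimpleGraph.adj_comm]
  have h1 : ∑ R ∈ powersetCard s (univ : Finset V), ∑ x ∈ cn G R, ((G.degree x : ℝ) - T)
      = ∑ x : V, ((G.degree x).choose s : ℝ) * ((G.degree x : ℝ) - T) := by
    rw [sum_cn_weight]
    refine Finset.sum_congr rfl (fun x _ => ?_)
    rw [hdeg]
  -- Chebyshev
  have hcheb : (∑ x : V, ((G.degree x).choose s : ℝ)) * (∑ x : V, ((G.degree x : ℝ) - T))
      ≤ (n : ℝ) * ∑ x : V, ((G.degree x).choose s : ℝ) * ((G.degree x : ℝ) - T) := by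
    have hmono : Monovary (fun x : V => ((G.degree x).choose s : ℝ))
        (fun x : V => ((G.degree x : ℝ) - T)) := by
      intro x y hxy
      have : G.degree x < G.degree y := by
        have : (G.degree x : ℝ) < G.degree y := by linarith
        exact_mod_cast this
      have h := Nat.choose_le_choose s this.le
      show (((G.degree x).choose s : ℕ) : ℝ) ≤ (((G.degree y).choose s : ℕ) : ℝ)
      exact_mod_cast h
    have := hmono.sum_mul_sum_le_card_mul_sum
    rw [hn] at this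
    exact this
  -- power mean
  have hpm : (n.choose s : ℝ) * ((n : ℝ) * (m / n) ^ s) ≤ ∑ x : V, ((G.degree x).choose s : ℝ) := by
    have h3 : ∀ x ∈ (univ : Finset V), (n.choose s : ℝ) * (((G.degree x + 1 - s : ℕ) : ℝ) / n) ^ s
        ≤ ((G.degree x).choose s : ℝ) := by
      intro x _
      have := choose_ratio (G.degree x) n s
      rw [div_pow, mul_div_assoc', div_le_iff₀ (by positivity)]
      linarith
    have h4 := Finset.sum_le_sum h3
    rw [← Finset.mul_sum] at h4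
    have h5 := power_mean (univ : Finset V) (fun x => ((G.degree x + 1 - s : ℕ) : ℝ) / n)
      (fun x _ => by positivity) s (m / n) (by positivity) (by
        rw [← Finset.sum_div, le_div_iff₀ hnpos', Finset.card_univ, hn]
        have h6 : ∀ x ∈ (univ : Finset V), (G.degree x : ℝ) + 1 - s
            ≤ ((G.degree x + 1 - s : ℕ) : ℝ) := by
          intro x _
          have : ((G.degree x : ℕ) : ℤ) + 1 - s ≤ ((G.degree x + 1 - s : ℕ) : ℤ) := by omega
          exact_mod_cast this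
        have h7 := Finset.sum_le_sum h6
        have h8 : ∑ x : V, ((G.degree x : ℝ) + 1 - s) = ∑ v : V, (G.degree v : ℝ) + n - s * n := by
          rw [Finset.sum_sub_distrib, Finset.sum_add_distrib]
          simp [hn]
          ring
        rw [h8] at h7
        have h9 : m / n * n * n = m * n := by field_simp
        rw [h9]
        linarith) hs
    rw [Finset.card_univ, hn] at h5
    exact le_trans (mul_le_mul_of_nonneg_left h5 hCpos'.le) h4
  -- combine
  have hprod : (n.choose s : ℝ) * ((n : ℝ) * (m / n) ^ s * D)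
      ≤ ∑ x : V, ((G.degree x).choose s : ℝ) * ((G.degree x : ℝ) - T) := by
    have hge : 0 ≤ ∑ x : V, ((G.degree x).choose s : ℝ) := by positivity
    have h2 : (n.choose s : ℝ) * ((n : ℝ) * (m / n) ^ s) * (D * n)
        ≤ (∑ x : V, ((G.degree x).choose s : ℝ)) * (∑ x : V, ((G.degree x : ℝ) - T)) := by
      apply mul_le_mul hpm hD (by positivity) hge
    have h3 := h2.trans hcheb
    have h4 : (n : ℝ) * ((n.choose s : ℝ) * ((n : ℝ) * (m / n) ^ s * D))
        ≤ (n : ℝ) * ∑ x : V, ((G.degree x).choose s : ℝ) * ((G.degree x : ℝ) - T) := by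
      refine le_trans (le_of_eq ?_) h3
      ring
    exact le_of_mul_le_mul_left h4 hnpos'
  rw [← h1] at hprod
  have hcardP : ((powersetCard s (univ : Finset V)).card : ℝ) = n.choose s := by
    rw [card_powersetCard, Finset.card_univ, hn]
  rw [← hcardP, ← nsmul_eq_mul] at hprod
  obtain ⟨R, hR, hRle⟩ := Finset.exists_le_of_sum_le (s := powersetCard s (univ : Finset V))
    (f := fun _ => (n : ℝ) * (m / n) ^ s * D)
    (g := fun R => ∑ x ∈ cn G R, ((G.degree x : ℝ) - T))
    (by rw [← Finset.card_pos, card_powersetCard, Finset.card_univ, hn]; exact hCpos)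
    (by rw [Finset.sum_const]; exact hprod)
  exact ⟨R, (mem_powersetCard.1 hR).2, hRle⟩

/-- the large-`r` conditions used below -/
lemma large_r (δ : ℝ) (h0 : 0 < δ) (h1 : δ < 1) :
    ∀ᶠ r : ℕ in Filter.atTop, 1 ≤ (1 - δ) * r ∧ 2 / (δ / 3) ≤ (r : ℝ) ∧
      2 * (r : ℝ) / (δ / 3) ≤ 2 ^ r ∧ 4 * (r : ℝ) ≤ 2 ^ r ∧
      2 * (r : ℝ) ^ 2 / (δ / 3) ≤ ((2 : ℝ) ^ δ) ^ r * (δ / 3) / 8 := by
  have hb : (1 : ℝ) < (2 : ℝ) ^ δ := Real.one_lt_rpow (by norm_num) h0
  have t1 := tendsto_pow_const_div_const_pow_of_one_lt 2 hb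
  have t2 := tendsto_pow_const_div_const_pow_of_one_lt 1 (show (1 : ℝ) < 2 by norm_num)
  have hc1 : (0 : ℝ) < (δ / 3) * (δ / 3) / 16 := by positivity
  have hc2 : (0 : ℝ) < min ((δ / 3) / 2) (1 / 4) := by positivity
  have e1 := t1.eventually (gt_mem_nhds hc1)
  have e2 := t2.eventually (gt_mem_nhds hc2)
  have e3 : ∀ᶠ r : ℕ in Filter.atTop, 1 / (1 - δ) ≤ (r : ℝ) :=
    tendsto_natCast_atTop_atTop.eventually (Filter.eventually_ge_atTop _)
  have e4 : ∀ᶠ r : ℕ in Filter.atTop, 2 / (δ / 3) ≤ (r : ℝ) :=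
    tendsto_natCast_atTop_atTop.eventually (Filter.eventually_ge_atTop _)
  filter_upwards [e1, e2, e3, e4] with r h1' h2' h3' h4'
  have hpos : (0 : ℝ) < 2 ^ r := by positivity
  have hbpos : (0 : ℝ) < ((2 : ℝ) ^ δ) ^ r := by positivity
  refine ⟨?_, h4', ?_, ?_, ?_⟩
  · rw [div_le_iff₀ (by linarith)] at h3'
    linarith
  · have h := lt_of_lt_of_le h2' (min_le_left _ _)
    rw [pow_one, div_lt_iff₀ hpos] at h
    rw [div_le_iff₀ (by positivity)]
    nlinarith
  · have h := lt_of_lt_of_le h2' (min_le_right _ _)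
    rw [pow_one, div_lt_iff₀ hpos] at h
    nlinarith
  · rw [div_lt_iff₀ hbpos] at h1'
    rw [div_le_iff₀ (by positivity)]
    nlinarith

theorem main_lower (δ : ℝ) (h0 : 0 < δ) (h1 : δ < 1) :
    ∀ᶠ r : ℕ in Filter.atTop, ∀ n : ℕ, r * 2 ^ r < n → ∀ (G : SimpleGraph (Fin n))
      [DecidableRel G.Adj], n ^ 2 ≤ 4 * G.edgeFinset.card + 1 →
      ∃ R S : Finset (Fin n), R.card = r ∧ (∀ x ∈ R, ∀ y ∈ S, G.Adj x y) ∧
        (1 - δ) * ((n : ℝ) / 2 ^ r) + (1 - δ) * r - 2 ≤ (S.card : ℝ) := by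
  filter_upwards [large_r δ h0 h1, Filter.eventually_ge_atTop 1] with r hr hr1 n hn G _ hE
  obtain ⟨c1, c2, c3, c4, c5⟩ := hr
  set d : ℝ := δ / 3 with hd
  have hdpos : 0 < d := by positivity
  have hd1 : d < 1 / 3 := by rw [hd]; linarith
  have hrpos : (0 : ℝ) < r := by exact_mod_cast hr1
  have hr1' : (1 : ℝ) ≤ r := by exact_mod_cast hr1
  have hnR : (r : ℝ) * 2 ^ r < n := by exact_mod_cast hn
  have hnpos : 0 < n := by omega
  have hnpos' : (0 : ℝ) < n := by exact_mod_cast hnpos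
  have h2r : (1 : ℝ) ≤ 2 ^ r := one_le_pow₀ (by norm_num)
  have hnr : (r : ℝ) ≤ n := by nlinarith
  set s : ℕ := ⌊(1 - δ) * r⌋₊ with hs
  have hs1 : 1 ≤ s := by
    rw [hs]; exact Nat.le_floor (by exact_mod_cast c1)
  have hsle : (s : ℝ) ≤ (1 - δ) * r := Nat.floor_le (by nlinarith)
  have hsge : (1 - δ) * r - 1 ≤ (s : ℝ) := by
    have := Nat.lt_floor_add_one ((1 - δ) * (r : ℝ))
    linarith
  have hsr : (s : ℝ) ≤ r := by nlinarith
  have hsr' : s ≤ r := by exact_mod_cast hsr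
  have hs0 : (0 : ℝ) < s := by exact_mod_cast hs1
  have hsn : s ≤ n := by
    have : (s : ℝ) ≤ n := by linarith
    exact_mod_cast this
  -- n large
  have hn1 : 2 * (r : ℝ) * s / d ≤ n := by
    have : 2 * (r : ℝ) * s / d ≤ r * 2 ^ r := by
      calc 2 * (r : ℝ) * s / d = s * (2 * (r : ℝ) / d) := by ring
        _ ≤ r * 2 ^ r := by
          apply mul_le_mul hsr c3 (by positivity) (by positivity)
    linarith
  have hn2 : 4 * (s : ℝ) ^ 2 ≤ n := by
    have : 4 * (s : ℝ) ^ 2 ≤ r * 2 ^ r := by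
      calc 4 * (s : ℝ) ^ 2 = s * (4 * s) := by ring
        _ ≤ r * (4 * r) := by
          apply mul_le_mul hsr (by linarith) (by positivity) (by positivity)
        _ ≤ r * 2 ^ r := mul_le_mul_of_nonneg_left c4 hrpos.le
    linarith
  -- degree sum
  have hdegsum : ((n : ℝ) ^ 2 - 1) / 2 ≤ ∑ v : Fin n, (G.degree v : ℝ) := by
    have h := G.sum_degrees_eq_twice_card_edges
    have h' : ∑ v : Fin n, (G.degree v : ℝ) = 2 * (G.edgeFinset.card : ℝ) := by exact_mod_cast h
    rw [h']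
    have : ((n : ℝ)) ^ 2 ≤ 4 * (G.edgeFinset.card : ℝ) + 1 := by exact_mod_cast hE
    linarith
  set T : ℝ := (n / 2) * (1 - d / r) with hT
  have hdr : d / r ≤ 1 := by
    rw [div_le_one hrpos]; linarith
  have hdr0 : 0 < d / r := by positivity
  have hT0 : 0 ≤ T := by
    rw [hT]; apply mul_nonneg (by positivity); linarith
  set D : ℝ := n * d / (4 * r) with hDdef
  have hD0 : 0 ≤ D := by positivity
  have hnn : 2 * (r : ℝ) ≤ (n : ℝ) ^ 2 * d := by
    have h2 : 2 ≤ (r : ℝ) * d := by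
      rw [div_le_iff₀ hdpos] at c2; linarith
    have h3 : (r : ℝ) * r ≤ (n : ℝ) ^ 2 := by nlinarith
    calc 2 * (r : ℝ) ≤ ((r : ℝ) * d) * r := mul_le_mul_of_nonneg_right h2 hrpos.le
      _ = (r * r) * d := by ring
      _ ≤ (n : ℝ) ^ 2 * d := mul_le_mul_of_nonneg_right h3 hdpos.le
  have hD : D * n ≤ ∑ v : Fin n, ((G.degree v : ℝ) - T) := by
    rw [Finset.sum_sub_distrib, Finset.sum_const, Finset.card_univ, Fintype.card_fin, nsmul_eq_mul]
    have h2 : (n : ℝ) * T = (n : ℝ) ^ 2 / 2 - (n : ℝ) ^ 2 * d / (2 * r) := by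
      rw [hT]; field_simp
    have h3 : D * n = (n : ℝ) ^ 2 * d / (4 * r) := by rw [hDdef]; ring
    have h4 : (1 : ℝ) / 2 ≤ (n : ℝ) ^ 2 * d / (4 * r) := by
      rw [le_div_iff₀ (by positivity)]; linarith
    have h5 : (n : ℝ) ^ 2 * d / (2 * r) = 2 * ((n : ℝ) ^ 2 * d / (4 * r)) := by
      field_simp; ring
    rw [h2, h3, h5]
    linarith
  have hm0 : (0 : ℝ) ≤ n / 2 - s := by
    nlinarith [hn2, hs0, hs1, (show (1 : ℝ) ≤ s by exact_mod_cast hs1)]
  obtain ⟨S0, hS0, hS0w⟩ := exists_S0 G s hs1 T D (n / 2 - s) n (Fintype.card_fin n) hnpos hm0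
    (by nlinarith [hdegsum, (show (1 : ℝ) ≤ n by exact_mod_cast hnpos)]) hD hD0 hsn hT0
  -- lower bound of the weight
  have hpow : (1 : ℝ) / 2 ^ s / 2 ≤ ((n / 2 - s) / n) ^ s := by
    have h2 : ((n : ℝ) / 2 - s) / n = (1 / 2) * (1 + (-(2 * s / n))) := by
      field_simp; ring
    have h3 : 1 + (s : ℝ) * (-(2 * s / n)) ≤ (1 + (-(2 * s / n))) ^ s := by
      apply one_add_mul_le_pow
      have : 2 * (s : ℝ) / n ≤ 1 := by
        rw [div_le_one hnpos']; nlinarith [(show (1 : ℝ) ≤ s by exact_mod_cast hs1)]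
      linarith
    have h4 : (1 : ℝ) / 2 ≤ 1 + (s : ℝ) * (-(2 * s / n)) := by
      have : (s : ℝ) * (2 * s / n) ≤ 1 / 2 := by
        rw [mul_div_assoc', div_le_iff₀ hnpos']; nlinarith
      linarith
    rw [h2, mul_pow, div_pow, one_pow]
    calc (1 : ℝ) / 2 ^ s / 2 = 1 / 2 ^ s * (1 / 2) := by ring
      _ ≤ 1 / 2 ^ s * (1 + (-(2 * s / n))) ^ s :=
        mul_le_mul_of_nonneg_left (h4.trans h3) (by positivity)
  have hW : (n : ℝ) * (1 / 2 ^ s / 2) * D ≤ ∑ v ∈ cn G S0, ((G.degree v : ℝ) - T) := by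
    refine le_trans ?_ hS0w
    apply mul_le_mul_of_nonneg_right _ hD0
    apply mul_le_mul_of_nonneg_left hpow hnpos'.le
  have hWpos : 0 ≤ (n : ℝ) * (1 / 2 ^ s / 2) * D := by positivity
  set A := cn G S0 with hA
  have hAbig : (n : ℝ) * d / (8 * r * 2 ^ s) ≤ A.card := by
    have h2 : ∑ v ∈ A, ((G.degree v : ℝ) - T) ≤ ∑ v ∈ A, (n : ℝ) := by
      apply Finset.sum_le_sum
      intro v _
      have : (G.degree v : ℝ) ≤ n := by
        have := G.degree_lt_card_verts v
        rw [Fintype.card_fin] at this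
        exact_mod_cast this.le
      linarith
    rw [Finset.sum_const, nsmul_eq_mul] at h2
    have h3 := hW.trans h2
    have h4 : (n : ℝ) * (1 / 2 ^ s / 2) * D = ((n : ℝ) * d / (8 * r * 2 ^ s)) * n := by
      rw [hDdef]; field_simp; ring
    rw [h4] at h3
    exact le_of_mul_le_mul_right h3 hnpos'
  have hAL : 2 * (r : ℝ) ^ 2 / d ≤ A.card := by
    refine le_trans c5 (le_trans ?_ hAbig)
    rw [le_div_iff₀ (by positivity)]
    have h2 : ((2 : ℝ) ^ δ) ^ r * 2 ^ s ≤ 2 ^ r := by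
      have e1 : ((2 : ℝ) ^ δ) ^ r = (2 : ℝ) ^ (δ * r) := by
        rw [Real.rpow_mul (by norm_num), Real.rpow_natCast]
      have e2 : (2 : ℝ) ^ s = (2 : ℝ) ^ (s : ℝ) := (Real.rpow_natCast 2 s).symm
      have e3 : (2 : ℝ) ^ r = (2 : ℝ) ^ (r : ℝ) := (Real.rpow_natCast 2 r).symm
      rw [e1, e2, e3, ← Real.rpow_add (by norm_num)]
      apply Real.rpow_le_rpow_of_exponent_le (by norm_num)
      linarith
    calc ((2 : ℝ) ^ δ) ^ r * d / 8 * (8 * r * 2 ^ s) = (((2 : ℝ) ^ δ) ^ r * 2 ^ s) * (r * d) := by ring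
      _ ≤ 2 ^ r * (r * d) := mul_le_mul_of_nonneg_right h2 (by positivity)
      _ = (r * 2 ^ r) * d := by ring
      _ ≤ n * d := mul_le_mul_of_nonneg_right hnR.le hdpos.le
  have hAr : r ≤ A.card := by
    have : (r : ℝ) ≤ A.card := by
      refine le_trans ?_ hAL
      rw [le_div_iff₀ hdpos]
      nlinarith
    exact_mod_cast this
  have hApos : (0 : ℝ) < A.card := by
    have : (0 : ℝ) < r := hrpos
    have h2 : (r : ℝ) ≤ A.card := by exact_mod_cast hAr
    linarith
  have hAdeg : T * A.card ≤ ∑ v ∈ A, (G.degree v : ℝ) := by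
    have h2 := hWpos.trans hW
    rw [Finset.sum_sub_distrib, Finset.sum_const, nsmul_eq_mul] at h2
    linarith
  have h3d : 3 * d / r ≤ 1 := by
    rw [div_le_one hrpos]; linarith
  obtain ⟨R, hRc, hR⟩ := exists_R G S0 r hr1 ((1 / 2) * (1 + (-(3 * d / r))))
    (by apply mul_nonneg (by norm_num); linarith) hAr (by
      rw [Fintype.card_fin, Finset.sum_sub_distrib, Finset.sum_const, nsmul_eq_mul, hS0]
      have h2 : (A.card : ℝ) * s ≤ A.card * n * (d / (2 * r)) := by
        rw [mul_assoc]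
        apply mul_le_mul_of_nonneg_left _ hApos.le
        rw [mul_div_assoc', le_div_iff₀ (by positivity)]
        rw [div_le_iff₀ hdpos] at hn1
        linarith
      have h3 : (r : ℝ) * n ≤ A.card * n * (d / (2 * r)) := by
        rw [div_le_iff₀ hdpos] at hAL
        have : (r : ℝ) ≤ A.card * (d / (2 * r)) := by
          rw [mul_div_assoc', le_div_iff₀ (by positivity)]
          nlinarith
        calc (r : ℝ) * n ≤ (A.card * (d / (2 * r))) * n := mul_le_mul_of_nonneg_right this hnpos'.le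
          _ = _ := by ring
      have h4 : 1 / 2 * (1 + -(3 * d / r)) * (A.card : ℝ) * n
          = T * A.card - 2 * (A.card * n * (d / (2 * r))) := by
        rw [hT]; field_simp; ring
      rw [h4]
      linarith)
  refine ⟨R, cn G R, hRc, ?_, ?_⟩
  · intro x hx y hy
    exact (mem_cn G).1 hy x hx
  refine le_trans ?_ hR
  rw [Fintype.card_fin, hS0]
  have hp : (1 - δ) / 2 ^ r ≤ (1 / 2 * (1 + (-(3 * d / r)))) ^ r := by
    have h3 : 1 + (r : ℝ) * (-(3 * d / r)) ≤ (1 + (-(3 * d / r))) ^ r := by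
      apply one_add_mul_le_pow
      linarith
    have h4 : 1 + (r : ℝ) * (-(3 * d / r)) = 1 - δ := by
      have h5 : (r : ℝ) * (3 * d / r) = 3 * d := by field_simp
      rw [mul_neg, h5, hd]; ring
    rw [h4] at h3
    rw [mul_pow, div_pow, one_pow]
    calc (1 - δ) / 2 ^ r = 1 / 2 ^ r * (1 - δ) := by ring
      _ ≤ _ := mul_le_mul_of_nonneg_left h3 (by positivity)
  have hns : (0 : ℝ) ≤ n - s := by
    have : (s : ℝ) ≤ n := by exact_mod_cast hsn
    linarith
  have h5 := mul_le_mul_of_nonneg_left hp hns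
  have h6 : ((n : ℝ) - s) * ((1 - δ) / 2 ^ r) ≥ (1 - δ) * (n / 2 ^ r) - 1 := by
    have h7 : (s : ℝ) * ((1 - δ) / 2 ^ r) ≤ 1 := by
      rw [mul_div_assoc', div_le_one (by positivity)]
      have : (s : ℝ) ≤ 2 ^ r := by nlinarith
      nlinarith
    have h8 : ((n : ℝ) - s) * ((1 - δ) / 2 ^ r) = (1 - δ) * (n / 2 ^ r) - s * ((1 - δ) / 2 ^ r) := by
      ring
    rw [h8]; linarith
  linarith

end Pool.Agent.Helper852.Bip
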