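import Mathlib

open Finset

namespace Pool.Agent.Helper852.Bip

/-- descending factorial ratio -/
lemma desc_ratio (N M t : ℕ) (h : M ≤ N) :
    N ^ t * M.descFactorial t ≤ M ^ t * N.descFactorial t := by
  induction t with
  | zero => simp
  | succ t ih =>
    rw [Nat.descFactorial_succ, Nat.descFactorial_succ, pow_succ, pow_succ]
    have h1 : N * (M - t) ≤ M * (N - t) := by
      rcases le_total t M with h2 | h2
      · obtain ⟨a, rfl⟩ := Nat.exists_eq_add_of_le h2
        obtain ⟨b, rfl⟩ := Nat.exists_eq_add_of_le h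
        have e1 : t + a - t = a := by omega
        have e2 : t + a + b - t = a + b := by omega
        rw [e1, e2]
        nlinarith [Nat.zero_le (t * b)]
      · have : M - t = 0 := by omega
        rw [this]; simp
    calc N ^ t * N * ((M - t) * M.descFactorial t)
        = (N * (M - t)) * (N ^ t * M.descFactorial t) := by ring
      _ ≤ (M * (N - t)) * (M ^ t * N.descFactorial t) := Nat.mul_le_mul h1 ih
      _ = _ := by ring

lemma choose_ratio2 (N M t : ℕ) (h : M ≤ N) (ht : t ≤ M) :
    (N - t).choose (M - t) * N ^ t ≤ N.choose M * M ^ t := by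
  have h1 : N.choose M * M.choose t = N.choose t * (N - t).choose (M - t) :=
    Nat.choose_mul ht
  have h2 : N ^ t * M.choose t ≤ M ^ t * N.choose t := by
    have := desc_ratio N M t h
    rw [Nat.descFactorial_eq_factorial_mul_choose, Nat.descFactorial_eq_factorial_mul_choose] at this
    have hf : 0 < t.factorial := Nat.factorial_pos t
    have h3 : t.factorial * (N ^ t * M.choose t) ≤ t.factorial * (M ^ t * N.choose t) := by
      calc t.factorial * (N ^ t * M.choose t) = N ^ t * (t.factorial * M.choose t) := by ring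
        _ ≤ M ^ t * (t.factorial * N.choose t) := this
        _ = _ := by ring
    exact Nat.le_of_mul_le_mul_left h3 hf
  have hpos : 0 < N.choose t := Nat.choose_pos (ht.trans h)
  apply Nat.le_of_mul_le_mul_left _ hpos
  calc N.choose t * ((N - t).choose (M - t) * N ^ t)
      = (N.choose t * (N - t).choose (M - t)) * N ^ t := by ring
    _ = (N.choose M * M.choose t) * N ^ t := by rw [h1]
    _ = N.choose M * (N ^ t * M.choose t) := by ring
    _ ≤ N.choose M * (M ^ t * N.choose t) := Nat.mul_le_mul_left _ h2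
    _ = _ := by ring

/-- number of `M`-subsets of `E` containing `K` -/
lemma count_contain {α : Type*} [DecidableEq α] (E K : Finset α) (hK : K ⊆ E) (M : ℕ)
    (hM : M ≤ E.card) :
    ((powersetCard M E).filter (fun F => K ⊆ F)).card * E.card ^ K.card
      ≤ E.card.choose M * M ^ K.card := by
  rcases lt_or_ge M K.card with h | h
  · have : (powersetCard M E).filter (fun F => K ⊆ F) = ∅ := by
      apply Finset.filter_eq_empty_iff.2
      intro F hF hKF
      have h1 := (mem_powersetCard.1 hF).2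
      have h2 := card_le_card hKF
      omega
    rw [this]; simp
  · refine le_trans ?_ (choose_ratio2 E.card M K.card hM h)
    apply Nat.mul_le_mul_right
    have h1 : (E.card - K.card).choose (M - K.card) = (powersetCard (M - K.card) (E \ K)).card := by
      rw [card_powersetCard, card_sdiff_of_subset hK]
    rw [h1]
    apply Finset.card_le_card_of_injOn (fun F => F \ K)
    · intro F hF
      have hF' := Finset.mem_filter.1 (Finset.mem_coe.1 hF)
      have hF1 := mem_powersetCard.1 hF'.1
      apply Finset.mem_coe.2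
      apply mem_powersetCard.2
      refine ⟨sdiff_subset_sdiff hF1.1 (Subset.refl _), ?_⟩
      rw [card_sdiff_of_subset hF'.2, hF1.2]
    · intro F hF F' hF' hEq
      have h2 := (Finset.mem_filter.1 (Finset.mem_coe.1 hF)).2
      have h3 := (Finset.mem_filter.1 (Finset.mem_coe.1 hF')).2
      simp only at hEq
      rw [← Finset.sdiff_union_of_subset h2, ← Finset.sdiff_union_of_subset h3, hEq]

lemma two_mul_le : ∀ r : ℕ, 1 ≤ r → r * 2 ≤ 2 ^ r := by
  intro r hr
  induction r, hr using Nat.le_induction with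
  | base => norm_num
  | succ k hk ih =>
    have h2k : 2 ≤ 2 ^ k := by
      calc 2 = 2 ^ 1 := by norm_num
        _ ≤ 2 ^ k := Nat.pow_le_pow_right (by norm_num) hk
    rw [pow_succ]
    omega

/-- numerical estimate for one term of the union bound -/
lemma term_bound (n r s : ℕ) (K : ℝ) (hn : 3 ≤ n) (hr : 1 ≤ r) (hrn : r * 2 ^ r < n)
    (hK : Real.exp 1 ≤ K)
    (hKn : 2 * Real.log n + 1 ≤ K * (Real.log K - 2))
    (hs1 : K * (n / 2 ^ r) ≤ s) (hs2 : (s : ℝ) ≤ K * (n / 2 ^ r) + 1) :
    (n.choose r : ℝ) * (n.choose s : ℝ) * ((n : ℝ) / (2 * (n - 1))) ^ (r * s)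
      ≤ (1 / (n : ℝ)) ^ r := by
  have hnpos : (0 : ℝ) < n := by positivity
  have hn3 : (3 : ℝ) ≤ n := by exact_mod_cast hn
  have hrR : (1 : ℝ) ≤ r := by exact_mod_cast hr
  have he : (1 : ℝ) < Real.exp 1 := by
    have := Real.add_one_lt_exp (x := 1) (by norm_num); linarith
  have hKpos : 0 < K := by linarith
  have h2r : (0 : ℝ) < 2 ^ r := by positivity
  have hnr : (r : ℝ) < n / 2 ^ r := by
    rw [lt_div_iff₀ h2r]; exact_mod_cast hrn
  have hspos : (0 : ℝ) < s := by
    have : 0 < K * (n / 2 ^ r) := by positivity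
    linarith
  -- choose bounds
  have c1 : (n.choose r : ℝ) ≤ (n : ℝ) ^ r := by
    exact_mod_cast Nat.choose_le_pow n r
  have c2 : (n.choose s : ℝ) ≤ (Real.exp 1 * 2 ^ r / K) ^ s := by
    have h1 : (n.choose s : ℝ) ≤ (n : ℝ) ^ s / (s.factorial : ℝ) := Nat.choose_le_pow_div s n
    have h2 : (s : ℝ) ^ s / (s.factorial : ℝ) ≤ Real.exp s :=
      Real.pow_div_factorial_le_exp (s : ℝ) hspos.le s
    have h3 : (n : ℝ) ^ s / (s.factorial : ℝ) ≤ Real.exp s * (n / s) ^ s := by
      have e1 : (n : ℝ) ^ s / (s.factorial : ℝ) = ((s : ℝ) ^ s / (s.factorial : ℝ)) * (n / s) ^ s := by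
        rw [div_pow]; field_simp
      rw [e1]
      exact mul_le_mul_of_nonneg_right h2 (by positivity)
    refine h1.trans (h3.trans ?_)
    have e2 : Real.exp s = Real.exp 1 ^ s := by
      rw [← Real.exp_nat_mul]; simp
    rw [e2, ← mul_pow]
    apply pow_le_pow_left₀ (by positivity)
    rw [mul_div_assoc]
    apply mul_le_mul_of_nonneg_left _ (by positivity)
    rw [div_le_div_iff₀ hspos hKpos]
    have : K * n ≤ s * 2 ^ r := by
      have := mul_le_mul_of_nonneg_right hs1 h2r.le
      have e3 : K * (n / 2 ^ r) * 2 ^ r = K * n := by field_simp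
      rw [e3] at this; exact this
    linarith
  have c3 : ((n : ℝ) / (2 * (n - 1))) ^ (r * s) ≤ (1 / 2 ^ r) ^ s * Real.exp (K + 1) := by
    have e1 : (n : ℝ) / (2 * (n - 1)) = (1 / 2) * (1 / (n - 1) + 1) := by
      have : (n : ℝ) - 1 ≠ 0 := by linarith
      field_simp; ring
    rw [e1, mul_pow]
    have e2 : ((1 : ℝ) / 2) ^ (r * s) = (1 / 2 ^ r) ^ s := by
      rw [pow_mul]; congr 1; rw [div_pow, one_pow]
    rw [e2]
    apply mul_le_mul_of_nonneg_left _ (by positivity)
    have h1 : (1 / ((n : ℝ) - 1) + 1) ≤ Real.exp (1 / (n - 1)) := Real.add_one_le_exp _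
    have h2 : (0 : ℝ) ≤ 1 / ((n : ℝ) - 1) + 1 := by
      have : (0 : ℝ) < n - 1 := by linarith
      positivity
    refine (pow_le_pow_left₀ h2 h1 _).trans ?_
    rw [← Real.exp_nat_mul]
    apply Real.exp_le_exp.2
    push_cast
    have h3 : (r : ℝ) * s ≤ (K + 1) * (n - 1) := by
      have h4 : (r : ℝ) * s ≤ r * (K * (n / 2 ^ r) + 1) := mul_le_mul_of_nonneg_left hs2 (by positivity)
      have h5 : (r : ℝ) * 2 ≤ 2 ^ r := by
        have : r * 2 ≤ 2 ^ r := two_mul_le r hr
        exact_mod_cast this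
      have h6 : (r : ℝ) * (K * (n / 2 ^ r)) ≤ K * n / 2 := by
        rw [mul_div_assoc', mul_div_assoc', div_le_iff₀ h2r]
        calc (r : ℝ) * (K * n) = (r * 2) * (K * n / 2) := by ring
          _ ≤ 2 ^ r * (K * n / 2) := mul_le_mul_of_nonneg_right h5 (by positivity)
          _ = _ := by ring
      have h7 : (r : ℝ) ≤ n - 1 := by
        have h8 : (r : ℝ) * 2 ≤ n := by
          have : (r : ℝ) * 2 ^ r < n := by exact_mod_cast hrn
          nlinarith
        linarith
      nlinarith
    have hn1 : (0 : ℝ) < n - 1 := by linarith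
    rw [mul_one_div, div_le_iff₀ hn1]
    exact h3
  have hchain : (n.choose r : ℝ) * (n.choose s : ℝ) * ((n : ℝ) / (2 * (n - 1))) ^ (r * s)
      ≤ (n : ℝ) ^ r * (Real.exp 1 * 2 ^ r / K) ^ s * ((1 / 2 ^ r) ^ s * Real.exp (K + 1)) := by
    apply mul_le_mul _ c3
    · apply pow_nonneg
      apply div_nonneg hnpos.le; linarith
    · positivity
    · exact mul_le_mul c1 c2 (by positivity) (by positivity)
  refine hchain.trans ?_
  have e1 : (n : ℝ) ^ r * (Real.exp 1 * 2 ^ r / K) ^ s * ((1 / 2 ^ r) ^ s * Real.exp (K + 1))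
      = (n : ℝ) ^ r * (Real.exp 1 / K) ^ s * Real.exp (K + 1) := by
    have : (Real.exp 1 * 2 ^ r / K) ^ s * (1 / 2 ^ r) ^ s = (Real.exp 1 / K) ^ s := by
      rw [← mul_pow]; congr 1; field_simp
    calc _ = (n : ℝ) ^ r * ((Real.exp 1 * 2 ^ r / K) ^ s * (1 / 2 ^ r) ^ s) * Real.exp (K + 1) := by ring
      _ = _ := by rw [this]
  rw [e1]
  -- pass to exponentials
  have hL : 0 ≤ Real.log K - 1 := by
    have := Real.log_le_log (by positivity) hK
    rw [Real.log_exp] at this; linarith
  have e2 : (Real.exp 1 / K) ^ s ≤ Real.exp (-(K * r * (Real.log K - 1))) := by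
    have h1 : Real.exp 1 / K = Real.exp (-(Real.log K - 1)) := by
      rw [neg_sub, Real.exp_sub, Real.exp_log hKpos]
    rw [h1, ← Real.exp_nat_mul]
    apply Real.exp_le_exp.2
    have h2 : K * r ≤ s := by
      have : K * r ≤ K * (n / 2 ^ r) := mul_le_mul_of_nonneg_left hnr.le hKpos.le
      linarith
    have := mul_le_mul_of_nonneg_right h2 hL
    linarith
  have e3 : (n : ℝ) ^ r = Real.exp (r * Real.log n) := by
    rw [Real.exp_nat_mul, Real.exp_log hnpos]
  have e4 : (1 / (n : ℝ)) ^ r = Real.exp (-(r * Real.log n)) := by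
    rw [Real.exp_neg, ← e3, one_div, inv_pow]
  rw [e3, e4]
  calc Real.exp (r * Real.log n) * (Real.exp 1 / K) ^ s * Real.exp (K + 1)
      ≤ Real.exp (r * Real.log n) * Real.exp (-(K * r * (Real.log K - 1))) * Real.exp (K + 1) := by
        apply mul_le_mul_of_nonneg_right _ (by positivity)
        apply mul_le_mul_of_nonneg_left e2 (by positivity)
    _ = Real.exp (r * Real.log n + -(K * r * (Real.log K - 1)) + (K + 1)) := by
        rw [Real.exp_add (r * Real.log n + -(K * r * (Real.log K - 1))) (K + 1),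
          Real.exp_add (r * Real.log n) (-(K * r * (Real.log K - 1)))]
    _ ≤ Real.exp (-(r * Real.log n)) := by
        apply Real.exp_le_exp.2
        have h1 : K + 1 ≤ r * (K + 1) := by nlinarith
        have h2 : (r : ℝ) * (2 * Real.log n + 1) ≤ r * (K * (Real.log K - 2)) :=
          mul_le_mul_of_nonneg_left hKn (by positivity)
        nlinarith

/-- edge set of the complete bipartite graph between `R` and `S` -/
def bip {n : ℕ} (R S : Finset (Fin n)) : Finset (Sym2 (Fin n)) :=
  (R ×ˢ S).image (fun p => s(p.1, p.2))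

lemma card_bip {n : ℕ} (R S : Finset (Fin n)) (h : Disjoint R S) :
    (bip R S).card = R.card * S.card := by
  rw [bip, Finset.card_image_of_injOn, card_product]
  intro p hp q hq hpq
  have hp' := Finset.mem_product.1 (Finset.mem_coe.1 hp)
  have hq' := Finset.mem_product.1 (Finset.mem_coe.1 hq)
  simp only [Sym2.eq_iff] at hpq
  rcases hpq with ⟨h1, h2⟩ | ⟨h1, h2⟩
  · exact Prod.ext h1 h2
  · exfalso
    have : p.1 ∈ S := by rw [h1]; exact hq'.2
    exact Finset.disjoint_left.1 h hp'.1 this

theorem exists_graph (n : ℕ) (K : ℝ) (hn : 3 ≤ n) (hK : Real.exp 1 ≤ K)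
    (hKn : 2 * Real.log n + 1 ≤ K * (Real.log K - 2)) :
    ∃ G : SimpleGraph (Fin n), G.edgeSet.ncard = n ^ 2 / 4 ∧
      ∀ r : ℕ, 1 ≤ r → r * 2 ^ r < n → ∀ R S : Finset (Fin n), R.card = r →
        (∀ x ∈ R, ∀ y ∈ S, G.Adj x y) → (S.card : ℝ) ≤ K * (n / 2 ^ r) := by
  classical
  have hnpos : (0 : ℝ) < n := by positivity
  have hn3 : (3 : ℝ) ≤ n := by exact_mod_cast hn
  have hKpos : 0 < K := lt_of_lt_of_le (Real.exp_pos 1) hK
  set E : Finset (Sym2 (Fin n)) := (⊤ : SimpleGraph (Fin n)).edgeFinset with hE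
  have hEcard : E.card = n.choose 2 := by
    rw [hE, SimpleGraph.card_edgeFinset_top_eq_card_choose_two, Fintype.card_fin]
  set N := E.card with hN
  have hNreal : (N : ℝ) = n * (n - 1) / 2 := by
    rw [hEcard, Nat.cast_choose_two]
  set M := n ^ 2 / 4 with hM
  have hMreal : (M : ℝ) ≤ (n : ℝ) ^ 2 / 4 := by
    have := Nat.cast_div_le (α := ℝ) (m := n ^ 2) (n := 4)
    rw [hM]; push_cast at this; exact this
  have hMN : M ≤ N := by
    have : (M : ℝ) ≤ N := by
      rw [hNreal]; nlinarith
    exact_mod_cast this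
  have hNpos : (0 : ℝ) < N := by
    rw [hNreal]; nlinarith
  have hratio : (M : ℝ) / N ≤ n / (2 * (n - 1)) := by
    have h1 : (0 : ℝ) < n - 1 := by linarith
    rw [div_le_div_iff₀ hNpos (by positivity), hNreal]
    nlinarith [mul_le_mul_of_nonneg_right hMreal (show (0 : ℝ) ≤ 2 * (n - 1) by linarith)]
  set I : Finset ℕ := (range n).filter (fun r => 1 ≤ r ∧ r * 2 ^ r < n) with hI
  set sr : ℕ → ℕ := fun r => ⌊K * ((n : ℝ) / 2 ^ r)⌋₊ + 1 with hsr
  set U : Finset (Finset (Sym2 (Fin n))) := powersetCard M E with hU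
  set Bad : ℕ → Finset (Finset (Sym2 (Fin n))) := fun r =>
    ((powersetCard r (univ : Finset (Fin n)) ×ˢ powersetCard (sr r) (univ : Finset (Fin n))).filter
      (fun p => Disjoint p.1 p.2)).biUnion (fun p => U.filter (fun F => bip p.1 p.2 ⊆ F)) with hBad
  have hUcard : (U.card : ℝ) = N.choose M := by
    rw [hU, card_powersetCard]
  have hUpos : (0 : ℝ) < U.card := by
    rw [hUcard]; exact_mod_cast Nat.choose_pos hMN
  have hone : ∀ R S : Finset (Fin n), Disjoint R S →
      ((U.filter (fun F => bip R S ⊆ F)).card : ℝ)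
        ≤ U.card * ((n : ℝ) / (2 * (n - 1))) ^ (R.card * S.card) := by
    intro R S hRS
    have hsub : bip R S ⊆ E := by
      intro e he
      obtain ⟨p, hp, rfl⟩ := Finset.mem_image.1 he
      have hp' := Finset.mem_product.1 hp
      rw [hE, SimpleGraph.mem_edgeFinset, SimpleGraph.mem_edgeSet, SimpleGraph.top_adj]
      rintro h
      exact Finset.disjoint_left.1 hRS hp'.1 (by rw [h]; exact hp'.2)
    have h1 := count_contain E (bip R S) hsub M hMN
    rw [card_bip R S hRS] at h1
    have h2 : ((U.filter (fun F => bip R S ⊆ F)).card : ℝ) * (N : ℝ) ^ (R.card * S.card)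
        ≤ (N.choose M : ℝ) * (M : ℝ) ^ (R.card * S.card) := by exact_mod_cast h1
    have h3 : ((U.filter (fun F => bip R S ⊆ F)).card : ℝ)
        ≤ U.card * ((M : ℝ) / N) ^ (R.card * S.card) := by
      rw [hUcard, div_pow, mul_div_assoc', le_div_iff₀ (by positivity)]
      exact h2
    refine h3.trans ?_
    apply mul_le_mul_of_nonneg_left _ hUpos.le
    exact pow_le_pow_left₀ (by positivity) hratio _
  have hbad : ∀ r ∈ I, ((Bad r).card : ℝ) ≤ U.card * (1 / n) := by
    intro r hr
    rw [hI, mem_filter] at hr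
    obtain ⟨_, hr1, hr2⟩ := hr
    have h1 : ((Bad r).card : ℝ) ≤ ∑ p ∈ (powersetCard r (univ : Finset (Fin n)) ×ˢ
        powersetCard (sr r) (univ : Finset (Fin n))).filter (fun p => Disjoint p.1 p.2),
          ((U.filter (fun F => bip p.1 p.2 ⊆ F)).card : ℝ) := by
      exact_mod_cast Finset.card_biUnion_le
    have h2 : ∀ p ∈ (powersetCard r (univ : Finset (Fin n)) ×ˢ
        powersetCard (sr r) (univ : Finset (Fin n))).filter (fun p => Disjoint p.1 p.2),
          ((U.filter (fun F => bip p.1 p.2 ⊆ F)).card : ℝ)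
            ≤ U.card * ((n : ℝ) / (2 * (n - 1))) ^ (r * sr r) := by
      intro p hp
      rw [mem_filter, mem_product, mem_powersetCard, mem_powersetCard] at hp
      have := hone p.1 p.2 hp.2
      rw [hp.1.1.2, hp.1.2.2] at this
      exact this
    have h3 := h1.trans (Finset.sum_le_sum h2)
    rw [Finset.sum_const, nsmul_eq_mul] at h3
    have hq : (0 : ℝ) ≤ U.card * ((n : ℝ) / (2 * (n - 1))) ^ (r * sr r) := by
      apply mul_nonneg hUpos.le
      apply pow_nonneg
      apply div_nonneg hnpos.le; linarith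
    have h4 : ((((powersetCard r (univ : Finset (Fin n)) ×ˢ
        powersetCard (sr r) (univ : Finset (Fin n))).filter (fun p => Disjoint p.1 p.2)).card : ℕ) : ℝ)
        ≤ (n.choose r : ℝ) * (n.choose (sr r) : ℝ) := by
      have := Finset.card_filter_le (powersetCard r (univ : Finset (Fin n)) ×ˢ
        powersetCard (sr r) (univ : Finset (Fin n))) (fun p => Disjoint p.1 p.2)
      rw [card_product, card_powersetCard, card_powersetCard, card_univ, Fintype.card_fin] at this
      exact_mod_cast this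
    have h5 := h3.trans (mul_le_mul_of_nonneg_right h4 hq)
    refine h5.trans ?_
    have h6 := term_bound n r (sr r) K hn hr1 hr2 hK hKn
      (by simp only [hsr]; push_cast
          exact (Nat.lt_floor_add_one _).le)
      (by simp only [hsr]; push_cast
          have : (0 : ℝ) ≤ K * ((n : ℝ) / 2 ^ r) := by positivity
          have := Nat.floor_le this
          linarith)
    have h7 : (1 / (n : ℝ)) ^ r ≤ 1 / n := by
      have h8 : (1 / (n : ℝ)) ≤ 1 := by
        rw [div_le_one hnpos]; linarith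
      calc (1 / (n : ℝ)) ^ r ≤ (1 / (n : ℝ)) ^ 1 :=
            pow_le_pow_of_le_one (by positivity) h8 hr1
        _ = 1 / n := pow_one _
    calc (n.choose r : ℝ) * (n.choose (sr r) : ℝ) * (U.card * ((n : ℝ) / (2 * (n - 1))) ^ (r * sr r))
        = U.card * ((n.choose r : ℝ) * (n.choose (sr r) : ℝ) * ((n : ℝ) / (2 * (n - 1))) ^ (r * sr r)) := by ring
      _ ≤ U.card * (1 / n) := mul_le_mul_of_nonneg_left (h6.trans h7) hUpos.le
  -- union bound
  have hunion : ((I.biUnion Bad).card : ℝ) < U.card := by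
    have h1 : ((I.biUnion Bad).card : ℝ) ≤ ∑ r ∈ I, ((Bad r).card : ℝ) := by
      exact_mod_cast Finset.card_biUnion_le
    have h2 := h1.trans (Finset.sum_le_sum hbad)
    rw [Finset.sum_const, nsmul_eq_mul] at h2
    have h3 : (I.card : ℝ) ≤ n - 1 := by
      have : I ⊆ (range n).erase 0 := by
        intro r hr
        rw [hI, mem_filter] at hr
        rw [mem_erase]
        exact ⟨by omega, hr.1⟩
      have h4 := card_le_card this
      rw [card_erase_of_mem (by simp; omega), card_range] at h4
      have h5 : ((I.card : ℕ) : ℝ) ≤ ((n - 1 : ℕ) : ℝ) := by exact_mod_cast h4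
      rw [Nat.cast_sub (by omega)] at h5
      simpa using h5
    refine lt_of_le_of_lt h2 ?_
    calc (I.card : ℝ) * (U.card * (1 / n)) ≤ (n - 1) * (U.card * (1 / n)) :=
          mul_le_mul_of_nonneg_right h3 (by positivity)
      _ = U.card * ((n - 1) / n) := by ring
      _ < U.card * 1 := by
          apply mul_lt_mul_of_pos_left _ hUpos
          rw [div_lt_one hnpos]; linarith
      _ = U.card := mul_one _
  obtain ⟨F, hFU, hFbad⟩ : ∃ F ∈ U, F ∉ I.biUnion Bad := by
    by_contra hcon
    push Not at hcon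
    have : U ⊆ I.biUnion Bad := fun F hF => hcon F hF
    have h1 := card_le_card this
    have h2 : (U.card : ℝ) ≤ (I.biUnion Bad).card := by exact_mod_cast h1
    linarith
  have hF := mem_powersetCard.1 hFU
  have hnd : ∀ e ∈ F, ¬ e.IsDiag := by
    intro e he
    have := hF.1 he
    rw [hE, SimpleGraph.mem_edgeFinset] at this
    exact SimpleGraph.not_isDiag_of_mem_edgeSet _ this
  refine ⟨SimpleGraph.fromEdgeSet (F : Set (Sym2 (Fin n))), ?_, ?_⟩
  · rw [SimpleGraph.edgeSet_fromEdgeSet]
    have : (F : Set (Sym2 (Fin n))) \ Sym2.diagSet = (F : Set (Sym2 (Fin n))) := by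
      ext e
      constructor
      · intro h; exact h.1
      · intro h
        refine ⟨h, fun hd => hnd e (Finset.mem_coe.1 h) ?_⟩
        simpa using hd
    rw [this, Set.ncard_coe_finset, hF.2]
  · intro r hr1 hr2 R S hR hRS
    by_contra hcon
    push Not at hcon
    apply hFbad
    have hdisj : Disjoint R S := by
      rw [Finset.disjoint_left]
      intro x hx hx'
      exact (hRS x hx x hx').ne rfl
    have hsle : sr r ≤ S.card := by
      simp only [hsr]
      have : ⌊K * ((n : ℝ) / 2 ^ r)⌋₊ < S.card := by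
        rw [Nat.floor_lt (by positivity)]
        exact hcon
      omega
    obtain ⟨S', hS', hS'c⟩ := Finset.exists_subset_card_eq hsle
    rw [mem_biUnion]
    refine ⟨r, ?_, ?_⟩
    · rw [hI, mem_filter, mem_range]
      refine ⟨?_, hr1, hr2⟩
      have : r * 1 ≤ r * 2 ^ r := Nat.mul_le_mul_left _ Nat.one_le_two_pow
      omega
    · simp only [hBad]
      rw [mem_biUnion]
      refine ⟨(R, S'), ?_, ?_⟩
      · rw [mem_filter, mem_product, mem_powersetCard, mem_powersetCard]
        exact ⟨⟨⟨subset_univ _, hR⟩, ⟨subset_univ _, hS'c⟩⟩,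
          Finset.disjoint_of_subset_right hS' hdisj⟩
      · rw [mem_filter]
        refine ⟨hFU, ?_⟩
        intro e he
        obtain ⟨p, hp, rfl⟩ := Finset.mem_image.1 he
        have hp' := Finset.mem_product.1 hp
        have h1 := hRS p.1 hp'.1 p.2 (hS' hp'.2)
        rw [SimpleGraph.fromEdgeSet_adj] at h1
        exact Finset.mem_coe.1 h1.1

end Pool.Agent.Helper852.Bip
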